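import Mathlib

/-!
# A locally perturbed heavy-tailed planar walk: failure of the local limit theorem
-/

set_option autoImplicit false

open MeasureTheory ProbabilityTheory Filter Topology
open scoped ENNReal NNReal

namespace Pool.Agent.Results.MP_0c5cb5_pr.NoLocalLimit

/-- The weights `|k| ^ (-3)` of the points `k e₁` and `k e₂`, `k ≠ 0`; the other points of `ℤ ^ 2`
have weight `0`. -/
noncomputable def w (x : ℤ × ℤ) : ℝ≥0∞ :=
  if (x.1 = 0 ∧ x.2 ≠ 0) ∨ (x.1 ≠ 0 ∧ x.2 = 0) then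
    (((x.1.natAbs + x.2.natAbs : ℕ) : ℝ≥0∞) ^ 3)⁻¹ else 0

lemma w_ne_top (x : ℤ × ℤ) : w x ≠ ⊤ := by
  unfold w
  split_ifs with h
  · apply ENNReal.inv_ne_top.mpr
    apply pow_ne_zero
    have : x.1.natAbs + x.2.natAbs ≠ 0 := by omega
    exact_mod_cast this
  · simp

lemma sum_ne_top : ∑' x, w x ≠ ⊤ := by
  have h1 : ∀ x : ℤ × ℤ, w x ≤ (if x.2 = 0 then ENNReal.ofReal (|1 / (x.1 : ℝ) ^ 3|) else 0) +
      (if x.1 = 0 then ENNReal.ofReal (|1 / (x.2 : ℝ) ^ 3|) else 0) := by
    rintro ⟨a, b⟩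
    unfold w
    simp only
    have key : ∀ k : ℤ, k ≠ 0 → (((k.natAbs : ℕ) : ℝ≥0∞) ^ 3)⁻¹ =
        ENNReal.ofReal (|1 / (k : ℝ) ^ 3|) := by
      intro k hk
      have h2 : (0 : ℝ) < (k.natAbs : ℝ) := by
        have : 0 < k.natAbs := by omega
        exact_mod_cast this
      have h3 : |1 / (k : ℝ) ^ 3| = ((k.natAbs : ℝ) ^ 3)⁻¹ := by
        rw [abs_div, abs_one, abs_pow, one_div]
        congr 2
        rw [Nat.cast_natAbs]
        push_cast
        rfl
      rw [h3, ENNReal.ofReal_inv_of_pos (by positivity), ENNReal.ofReal_pow h2.le,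
        ENNReal.ofReal_natCast]
    split_ifs with h h2 h3 h3
    · rcases h with h | h
      · exact absurd h2 h.2
      · exact absurd h3 h.1
    · rcases h with h | h
      · exact absurd h.1 h3
      · rw [h2]
        simp only [Int.natAbs_zero, add_zero]
        rw [key a h.1]
    · rcases h with h | h
      · rw [h.1]
        simp only [Int.natAbs_zero, zero_add]
        rw [key b h.2]
      · exact absurd h.2 h2
    · rcases h with h | h
      · exact absurd h.1 h3
      · exact absurd h.2 h2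
    all_goals exact bot_le
  have h2 : ∑' k : ℤ, ENNReal.ofReal (|1 / (k : ℝ) ^ 3|) ≠ ⊤ := by
    have h3 : Summable fun k : ℤ => |1 / (k : ℝ) ^ 3| :=
      ((Real.summable_one_div_int_pow (p := 3)).mpr (by norm_num)).abs
    rw [← ENNReal.ofReal_tsum_of_nonneg (fun _ => abs_nonneg _) h3]
    exact ENNReal.ofReal_ne_top
  refine ne_top_of_le_ne_top ?_ (ENNReal.tsum_le_tsum h1)
  rw [ENNReal.tsum_add, ENNReal.tsum_prod', ENNReal.tsum_prod']
  apply ENNReal.add_ne_top.mpr
  constructor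
  · have : ∀ a : ℤ, ∑' b : ℤ, (if b = 0 then ENNReal.ofReal (|1 / (a : ℝ) ^ 3|) else 0) =
        ENNReal.ofReal (|1 / (a : ℝ) ^ 3|) := by
      intro a
      rw [tsum_ite_eq]
    simp only [this]
    exact h2
  · rw [ENNReal.tsum_comm]
    have : ∀ b : ℤ, ∑' a : ℤ, (if a = 0 then ENNReal.ofReal (|1 / (b : ℝ) ^ 3|) else 0) =
        ENNReal.ofReal (|1 / (b : ℝ) ^ 3|) := by
      intro b
      rw [tsum_ite_eq]
    simp only [this]
    exact h2

lemma sum_gt : 4 < ∑' x, w x := by
  have h1 : ∑ x ∈ ({(1, 0), (-1, 0), (0, 1), (0, -1), (2, 0)} : Finset (ℤ × ℤ)), w x ≤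
      ∑' x, w x := ENNReal.sum_le_tsum _
  refine lt_of_lt_of_le ?_ h1
  rw [Finset.sum_insert (by decide), Finset.sum_insert (by decide), Finset.sum_insert (by decide),
    Finset.sum_insert (by decide), Finset.sum_singleton]
  have e1 : w (1, 0) = 1 := by unfold w; simp
  have e2 : w (-1, 0) = 1 := by unfold w; simp
  have e3 : w (0, 1) = 1 := by unfold w; simp
  have e4 : w (0, -1) = 1 := by unfold w; simp
  have e5 : 0 < w (2, 0) := by
    unfold w
    rw [if_pos (Or.inr ⟨by norm_num, rfl⟩)]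
    apply ENNReal.inv_pos.mpr
    apply ENNReal.pow_ne_top
    simp
  rw [e1, e2, e3, e4]
  calc (4 : ℝ≥0∞) = 1 + (1 + (1 + 1)) + 0 := by norm_num
    _ < 1 + (1 + (1 + 1)) + w (2, 0) := ENNReal.add_lt_add_left (by simp) e5
    _ = 1 + (1 + (1 + (1 + w (2, 0)))) := by ring

/-- The step law `μ`: `μ (± k e_i) = c k ^ (-3)` for `k ≥ 1`, with `c` the normalizing constant. -/
noncomputable def mu : PMF (ℤ × ℤ) :=
  PMF.normalize w (by
    intro h
    have := sum_gt
    rw [h] at this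
    exact absurd this (by simp)) sum_ne_top

/-- The uniform law on `± e₁, ± e₂`. -/
noncomputable def nn : PMF (ℤ × ℤ) :=
  PMF.uniformOfFinset {(1, 0), (-1, 0), (0, 1), (0, -1)} (Finset.insert_nonempty _ _)

/-- The transition kernel: from the origin a step with law `nn`, from `y ≠ 0` a step with law
`mu`. -/
noncomputable def kern (y : ℤ × ℤ) : PMF (ℤ × ℤ) := if y = 0 then nn else mu.map (fun s => y + s)

/-- The law of `S_n`. -/
noncomputable def lawS : ℕ → PMF (ℤ × ℤ)
  | 0 => PMF.pure 0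
  | n + 1 => (lawS n).bind kern

lemma mu_e1 : mu (1, 0) < 1 / 4 := by
  unfold mu
  rw [PMF.normalize_apply]
  have e1 : w (1, 0) = 1 := by unfold w; simp
  rw [e1, one_mul, one_div]
  exact ENNReal.inv_lt_inv.mpr sum_gt

lemma kern_ne {y : ℤ × ℤ} (hy : y ≠ 0) : kern y (1, 0) = mu ((1, 0) - y) := by
  unfold kern
  rw [if_neg hy, PMF.map_apply, tsum_eq_single ((1, 0) - y)]
  · rw [if_pos (by abel)]
  · intro b hb
    rw [if_neg]
    intro h
    apply hb
    rw [h]; abel

lemma kern_zero : kern 0 (1, 0) = 1 / 4 := by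
  unfold kern nn
  rw [if_pos rfl, PMF.uniformOfFinset_apply, if_pos (by simp)]
  have : ({(1, 0), (-1, 0), (0, 1), (0, -1)} : Finset (ℤ × ℤ)).card = 4 := by decide
  rw [this, one_div]
  norm_num

lemma swap_term (f g : ℤ × ℤ → ℝ≥0∞) (a b : ℝ≥0∞) (h : ∀ y, y ≠ 0 → f y = g y)
    (ha : f 0 = a) (hb : g 0 = b) : ∑' y, f y + b = a + ∑' y, g y := by
  have h1 : ∀ y : ℤ × ℤ, f y + (if y = 0 then b else 0) = (if y = 0 then a else 0) + g y := by
    intro y
    by_cases hy : y = 0
    · subst hy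
      rw [if_pos rfl, if_pos rfl, ha, hb]
    · rw [if_neg hy, if_neg hy, h y hy, add_zero, zero_add]
  have h2 : ∑' y : ℤ × ℤ, (f y + (if y = 0 then b else 0)) =
      ∑' y : ℤ × ℤ, ((if y = 0 then a else 0) + g y) := tsum_congr h1
  rw [ENNReal.tsum_add, ENNReal.tsum_add, tsum_ite_eq, tsum_ite_eq] at h2
  exact h2

lemma sum_mu : ∑' y : ℤ × ℤ, mu ((1, 0) - y) = 1 := by
  have h1 : ∑' y : ℤ × ℤ, mu ((1, 0) - y) = ∑' y : ℤ × ℤ, mu y :=
    (Equiv.subLeft ((1, 0) : ℤ × ℤ)).tsum_eq (fun x => mu x)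
  exact h1.trans (PMF.tsum_coe mu)

lemma swap_mu : ∑' y : ℤ × ℤ, kern y (1, 0) + mu (1, 0) =
    1 / 4 + ∑' y : ℤ × ℤ, mu ((1, 0) - y) := by
  have e1 : mu ((1, 0) - 0) = mu (1, 0) := congrArg mu (sub_zero _)
  exact swap_term (fun y => kern y (1, 0)) (fun y => mu ((1, 0) - y)) _ _
      (fun y hy => kern_ne hy) kern_zero e1

/-- the column sum of the kernel at `e₁` is larger than `1` -/
lemma col_sum : 1 < ∑' y, kern y (1, 0) := by
  have h2 := swap_mu
  have h4 := mu_e1
  rw [sum_mu] at h2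
  generalize ∑' y : ℤ × ℤ, kern y (1, 0) = S at h2 ⊢
  generalize mu (1, 0) = m at h2 h4
  by_contra hc
  rw [not_lt] at hc
  have h3 : S + m < 1 + 1 / 4 :=
    ENNReal.add_lt_add_of_le_of_lt (ne_top_of_le_ne_top ENNReal.one_ne_top hc) hc h4
  rw [h2, add_comm] at h3
  exact absurd h3 (lt_irrefl _)

/-- The centred Gaussian density with covariance `C ^ 2` times the identity, at `x / √(n log n)`. -/
noncomputable def gauss (C : ℝ) (n : ℕ) (x : ℤ × ℤ) : ℝ :=
  (2 * Real.pi * C ^ 2)⁻¹ *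
    Real.exp (-(((x.1 : ℝ) ^ 2 + (x.2 : ℝ) ^ 2) / (n * Real.log n)) / (2 * C ^ 2))

/-- The local limit theorem fails (for every value of `C`). -/
theorem result (C : ℝ) (hC : 0 < C) :
    ¬ ∀ ε : ℝ, 0 < ε → ∀ᶠ n : ℕ in atTop, ∀ x : ℤ × ℤ,
      |n * Real.log n * (lawS n x).toReal - gauss C n x| ≤ ε := by
  intro h
  set g0 : ℝ := (2 * Real.pi * C ^ 2)⁻¹ with hg0
  have hg0pos : 0 < g0 := by have := Real.pi_pos; positivity
  have hnlog : Tendsto (fun n : ℕ => (n : ℝ) * Real.log n) atTop atTop :=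
    tendsto_natCast_atTop_atTop.atTop_mul_atTop₀
      (Real.tendsto_log_atTop.comp tendsto_natCast_atTop_atTop)
  -- the Gaussian density converges pointwise
  have hgauss : ∀ x, Tendsto (fun n => gauss C n x) atTop (𝓝 g0) := by
    intro x
    unfold gauss
    have h1 : Tendsto (fun n : ℕ => ((x.1 : ℝ) ^ 2 + (x.2 : ℝ) ^ 2) / (n * Real.log n)) atTop
        (𝓝 0) := hnlog.const_div_atTop _
    have h2 : Tendsto (fun n : ℕ => -(((x.1 : ℝ) ^ 2 + (x.2 : ℝ) ^ 2) / (n * Real.log n)) /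
        (2 * C ^ 2)) atTop (𝓝 (-0 / (2 * C ^ 2))) := h1.neg.div_const _
    rw [neg_zero, zero_div] at h2
    have h3 := (Real.continuous_exp.tendsto 0).comp h2
    rw [Real.exp_zero] at h3
    have h4 := h3.const_mul g0
    rw [mul_one] at h4
    exact h4
  have hpt : ∀ x, Tendsto (fun n : ℕ => n * Real.log n * (lawS n x).toReal) atTop (𝓝 g0) := by
    intro x
    have h1 : Tendsto (fun n : ℕ => n * Real.log n * (lawS n x).toReal - gauss C n x) atTop
        (𝓝 0) := by
      rw [Metric.tendsto_atTop]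
      intro ε hε
      obtain ⟨N, hN⟩ := (eventually_atTop.mp (h (ε / 2) (by positivity)))
      refine ⟨N, fun n hn => ?_⟩
      rw [Real.dist_eq, sub_zero]
      have := hN n hn x
      linarith
    have h2 := h1.add (hgauss x)
    simpa using h2
  -- dominated convergence
  have hK : ∀ y, kern y (1, 0) ≠ ⊤ := fun y => PMF.apply_ne_top _ _
  have hsum_ne : ∑' y, kern y (1, 0) ≠ ⊤ := by
    have h1 : ∀ y, kern y (1, 0) ≤ (if y = 0 then 1 / 4 else 0) + mu ((1, 0) - y) := by
      intro y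
      by_cases hy : y = 0
      · subst hy
        rw [if_pos rfl, kern_zero]
        exact le_self_add
      · rw [if_neg hy, zero_add, kern_ne hy]
    refine ne_top_of_le_ne_top ?_ (ENNReal.tsum_le_tsum h1)
    rw [ENNReal.tsum_add, tsum_ite_eq]
    rw [sum_mu]
    refine ENNReal.add_ne_top.mpr ⟨?_, ENNReal.one_ne_top⟩
    rw [one_div]
    exact ENNReal.inv_ne_top.mpr (by norm_num)
  have hsumm : Summable fun y => (kern y (1, 0)).toReal := ENNReal.summable_toReal hsum_ne
  have hlim : Tendsto (fun n : ℕ => ∑' y, n * Real.log n * (lawS n y).toReal *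
      (kern y (1, 0)).toReal) atTop (𝓝 (∑' y, g0 * (kern y (1, 0)).toReal)) := by
    apply tendsto_tsum_of_dominated_convergence (bound := fun y =>
      (g0 + 1) * (kern y (1, 0)).toReal) (hsumm.mul_left _)
    · intro y
      exact (hpt y).mul_const _
    · have h1 : ∀ᶠ n : ℕ in atTop, 0 ≤ (n : ℝ) * Real.log n :=
        hnlog.eventually_ge_atTop 0
      filter_upwards [h 1 one_pos, h1] with n hn hn0 y
      have h2 := (abs_le.mp (hn y)).2
      have h3 : gauss C n y ≤ g0 := by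
        unfold gauss
        have : Real.exp (-(((y.1 : ℝ) ^ 2 + (y.2 : ℝ) ^ 2) / (n * Real.log n)) /
            (2 * C ^ 2)) ≤ 1 := by
          rw [Real.exp_le_one_iff]
          have : 0 ≤ ((y.1 : ℝ) ^ 2 + (y.2 : ℝ) ^ 2) / (n * Real.log n) := by positivity
          rw [neg_div]
          have : 0 ≤ ((y.1 : ℝ) ^ 2 + (y.2 : ℝ) ^ 2) / (n * Real.log n) / (2 * C ^ 2) := by
            positivity
          linarith
        calc g0 * _ ≤ g0 * 1 := mul_le_mul_of_nonneg_left this hg0pos.le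
          _ = g0 := mul_one _
      have h4 : 0 ≤ (n : ℝ) * Real.log n * (lawS n y).toReal := by positivity
      rw [Real.norm_eq_abs, abs_of_nonneg (by positivity)]
      apply mul_le_mul_of_nonneg_right _ ENNReal.toReal_nonneg
      linarith
  -- the limit is at most `g0`
  have hstep : ∀ n : ℕ, (lawS (n + 1) (1, 0)).toReal =
      ∑' y, (lawS n y).toReal * (kern y (1, 0)).toReal := by
    intro n
    rw [lawS, PMF.bind_apply, ENNReal.tsum_toReal_eq]
    · simp only [ENNReal.toReal_mul]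
    · intro y
      exact ENNReal.mul_ne_top (PMF.apply_ne_top _ _) (hK y)
  have hle : ∑' y, g0 * (kern y (1, 0)).toReal ≤ g0 := by
    have h1 : Tendsto (fun n : ℕ => ((n + 1 : ℕ) : ℝ) * Real.log ((n + 1 : ℕ) : ℝ) *
        (lawS (n + 1) (1, 0)).toReal) atTop (𝓝 g0) :=
      (hpt (1, 0)).comp (tendsto_add_atTop_nat 1)
    refine le_of_tendsto_of_tendsto hlim h1 ?_
    filter_upwards [eventually_ge_atTop 1] with n hn
    rw [hstep, ← tsum_mul_left]
    have h2 : ∀ y, (n : ℝ) * Real.log n * (lawS n y).toReal * (kern y (1, 0)).toReal =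
        (n : ℝ) * Real.log n * ((lawS n y).toReal * (kern y (1, 0)).toReal) := fun y => by ring
    simp only [h2]
    rw [tsum_mul_left, tsum_mul_left]
    apply mul_le_mul_of_nonneg_right
    · have hn1 : (1 : ℝ) ≤ n := by exact_mod_cast hn
      have h3 : 0 ≤ Real.log n := Real.log_nonneg hn1
      have h4 : Real.log n ≤ Real.log ((n + 1 : ℕ) : ℝ) := by
        apply Real.log_le_log (by linarith)
        push_cast; linarith
      push_cast at h4 ⊢
      nlinarith
    · exact tsum_nonneg fun y => by positivity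
  rw [tsum_mul_left] at hle
  have h5 : 1 < ∑' y, (kern y (1, 0)).toReal := by
    rw [← ENNReal.tsum_toReal_eq hK]
    have := (ENNReal.toReal_lt_toReal ENNReal.one_ne_top hsum_ne).mpr col_sum
    simpa using this
  nlinarith

end Pool.Agent.Results.MP_0c5cb5_pr.NoLocalLimit
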